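import Pool.Agent.W751.RV.Stm

/-! Project RV: negative moment of the denominator. -/

set_option autoImplicit false

open Polynomial Filter Topology MeasureTheory

namespace Pool.Agent.W440.RV

open Pool.Agent.W751.CD Pool.Agent.W751.CV Pool.Agent.W751.RV

theorem nq : S_NQ := by
  intro hZ hNo hQ σ N w hσ hN1 hw
  have hZ0 : 0 ≤ ZN σ N := by
    unfold ZN hk
    refine mul_nonneg (Nat.cast_nonneg _) (Finset.prod_nonneg fun k _ => ?_)
    positivity
  have hN1' : (1 : ℝ) ≤ N := by exact_mod_cast hN1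
  by_cases hw0 : w = 0
  · subst hw0
    have h0 : ∀ q : Fin N → ℂ, (Q q).eval 0 = 1 := fun q => by
      rw [hQ.1]
      exact Finset.prod_eq_one fun i _ => by rw [mul_zero, sub_zero]
    simp only [h0, norm_one, one_pow, inv_one, ENNReal.ofReal_one, norm_zero, zero_mul, sub_zero,
      div_one]
    rw [lintegral_const, one_mul, (hZ σ N hσ).1]
    apply ENNReal.ofReal_le_ofReal
    nlinarith
  · have hwn : 0 < ‖w‖ := norm_pos_iff.2 hw0
    have hu : ‖w⁻¹‖ = ‖w‖⁻¹ := norm_inv w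
    have hu0 : 0 < ‖w⁻¹‖ := by rw [hu]; positivity
    have hu1 : σ < ‖w⁻¹‖ := by
      rw [hu, ← one_div, lt_div_iff₀ hwn, mul_comm]
      exact hw
    have key : ∀ q : Fin N → ℂ, ENNReal.ofReal ((‖(Q q).eval w‖ ^ 2)⁻¹)
        = ENNReal.ofReal (‖w⁻¹‖ ^ (2 * N)) * ENNReal.ofReal ((‖(P q).eval w⁻¹‖ ^ 2)⁻¹) := by
      intro q
      rw [← ENNReal.ofReal_mul (by positivity), hQ.2.1 N q w hw0, norm_mul, norm_pow, mul_pow,
        mul_inv, hu, ← pow_mul, inv_pow, mul_comm N 2]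
    simp_rw [key]
    rw [lintegral_const_mul' _ _ ENNReal.ofReal_ne_top]
    refine (mul_le_mul' le_rfl (hNo σ N w⁻¹ hσ hN1 hu1)).trans ?_
    rw [← ENNReal.ofReal_mul (by positivity)]
    refine ENNReal.ofReal_le_ofReal (le_of_eq ?_)
    have e1 : ‖w⁻¹‖ ^ (2 * N) = ‖w⁻¹‖ ^ (2 * (N - 1)) * ‖w⁻¹‖ ^ 2 := by
      rw [← pow_add]
      congr 1
      omega
    have e2 : 1 - ‖w‖ * σ = (‖w⁻¹‖ - σ) / ‖w⁻¹‖ := by
      rw [hu]
      field_simp
    have e3 : ‖w⁻¹‖ - σ ≠ 0 := by linarith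
    rw [e1, e2]
    field_simp

end Pool.Agent.W440.RV
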